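import Mathlib

/-!
The sharply two-transitive group of degree 64 with point stabiliser `C₇ ⋊ C₉`.
-/

set_option synthInstance.maxSize 100000

namespace Pool.Agent.P.MP_ecc06a_al

/-- The elementary abelian group of order 64, written multiplicatively. -/
@[ext]
structure W where
  a : ZMod 2
  b : ZMod 2
  c : ZMod 2
  d : ZMod 2
  e : ZMod 2
  f : ZMod 2
  deriving DecidableEq

namespace W

/-- Coordinates. -/
def coords : (ZMod 2 × ZMod 2 × ZMod 2 × ZMod 2 × ZMod 2 × ZMod 2) ≃ W where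
  toFun x := ⟨x.1, x.2.1, x.2.2.1, x.2.2.2.1, x.2.2.2.2.1, x.2.2.2.2.2⟩
  invFun u := (u.a, u.b, u.c, u.d, u.e, u.f)
  left_inv _ := rfl
  right_inv _ := rfl

instance : Fintype W := Fintype.ofEquiv _ coords

instance : Mul W := ⟨fun u v => ⟨u.a + v.a, u.b + v.b, u.c + v.c, u.d + v.d, u.e + v.e, u.f + v.f⟩⟩
instance : One W := ⟨⟨0, 0, 0, 0, 0, 0⟩⟩
instance : Inv W := ⟨fun u => ⟨-u.a, -u.b, -u.c, -u.d, -u.e, -u.f⟩⟩

lemma mul_def (u v : W) :
    u * v = ⟨u.a + v.a, u.b + v.b, u.c + v.c, u.d + v.d, u.e + v.e, u.f + v.f⟩ := rfl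
lemma one_def : (1 : W) = ⟨0, 0, 0, 0, 0, 0⟩ := rfl
lemma inv_def (u : W) : u⁻¹ = ⟨-u.a, -u.b, -u.c, -u.d, -u.e, -u.f⟩ := rfl

instance : Group W := Group.ofLeftAxioms
  (fun u v w => by ext <;> simp only [mul_def] <;> ring)
  (fun u => by ext <;> simp only [mul_def, one_def] <;> ring)
  (fun u => by ext <;> simp only [mul_def, one_def, inv_def] <;> ring)

instance : CommGroup W where
  mul_comm u v := by ext <;> simp only [mul_def] <;> ring

/-- Multiplication by an element of order seven. -/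
def fa (v : W) : W := ⟨v.c + v.d, v.c + v.e, v.d + v.f, v.a + v.e, v.a + v.b + v.f, v.b + v.c⟩

/-- A semilinear map of order nine. -/
def fb (v : W) : W :=
  ⟨v.f, v.a + v.d + v.e + v.f, v.e, v.c + v.d + v.f, v.c + v.f, v.b + v.e + v.f⟩

lemma fa7 : ∀ v : W, fa^[7] v = v := by decide +kernel
lemma fb9 : ∀ v : W, fb^[9] v = v := by decide +kernel

/-- The automorphism of order seven. -/
def A : MulAut W where
  toFun := fa
  invFun := fa^[6]
  left_inv := fa7
  right_inv := fun v => (Function.iterate_succ_apply' fa 6 v).symm.trans (fa7 v)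
  map_mul' u v := by ext <;> simp only [mul_def, fa] <;> ring

/-- The automorphism of order nine. -/
def B : MulAut W where
  toFun := fb
  invFun := fb^[8]
  left_inv := fb9
  right_inv := fun v => (Function.iterate_succ_apply' fb 8 v).symm.trans (fb9 v)
  map_mul' u v := by ext <;> simp only [mul_def, fb] <;> ring

lemma pow_apply (T : MulAut W) (n : ℕ) (v : W) : (T ^ n) v = T^[n] v := by
  induction n generalizing v with
  | zero => rfl
  | succ n ih => rw [pow_succ, Function.iterate_succ_apply, ← ih]; rfl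

lemma A7 : A ^ 7 = 1 := by ext1 v; rw [pow_apply]; exact fa7 v
lemma B9 : B ^ 9 = 1 := by ext1 v; rw [pow_apply]; exact fb9 v

lemma BA : B * A = A ^ 4 * B := by
  ext1 v
  rw [MulAut.mul_apply, MulAut.mul_apply, pow_apply]
  revert v
  change ∀ v : W, fb (fa v) = fa^[4] (fb v)
  decide +kernel

/-- A fixed nonidentity element. -/
def v0 : W := ⟨1, 0, 0, 0, 0, 0⟩

lemma v0_ne : v0 ≠ 1 := by decide

lemma AB_ne : A * B ≠ B * A := fun h => by
  have := congrArg (fun T : MulAut W => T v0) h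
  revert this
  change ¬ fa (fb v0) = fb (fa v0)
  decide +kernel

lemma A4_v0 : (A ^ 4) v0 ≠ v0 := by
  rw [pow_apply]
  change ¬ fa^[4] v0 = v0
  decide +kernel

lemma fpf_aux : ∀ i : Fin 7, ∀ j : Fin 9, ∀ v : W, fa^[i] (fb^[j] v) = v → v ≠ 1 →
    i = 0 ∧ j = 0 := by decide +kernel

lemma trans_aux : ∀ w : W, w ≠ 1 → ∃ i : Fin 7, ∃ j : Fin 9, fa^[i] (fb^[j] v0) = w := by
  decide +kernel

lemma card_ne : Nat.card {v : W // v ≠ 1} = 63 := by
  rw [Nat.card_eq_fintype_card]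
  decide +kernel

lemma card_W : Nat.card W = 64 := by
  rw [Nat.card_eq_fintype_card]
  decide +kernel

end W

open W

/-- The point stabiliser. -/
def H : Subgroup (MulAut W) := Subgroup.closure {A, B}

lemma A_mem : A ∈ H := Subgroup.subset_closure (by simp)
lemma B_mem : B ∈ H := Subgroup.subset_closure (by simp)

lemma B_pow (i : ℕ) : B * A ^ i = A ^ (4 * i) * B := by
  induction i with
  | zero => simp
  | succ i ih => rw [pow_succ, ← mul_assoc, ih, mul_assoc, BA, ← mul_assoc, ← pow_add]; rfl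

lemma form (h : MulAut W) (hh : h ∈ H) : ∃ i j : ℕ, h = A ^ i * B ^ j := by
  have hA : ∀ (n : ℕ) (y : MulAut W), (∃ i j : ℕ, y = A ^ i * B ^ j) →
      ∃ i j : ℕ, A ^ n * y = A ^ i * B ^ j := by
    rintro n y ⟨i, j, rfl⟩
    exact ⟨n + i, j, by rw [pow_add, mul_assoc]⟩
  have hB : ∀ (n : ℕ) (y : MulAut W), (∃ i j : ℕ, y = A ^ i * B ^ j) →
      ∃ i j : ℕ, B ^ n * y = A ^ i * B ^ j := by
    intro n y hy
    induction n with
    | zero => simpa using hy
    | succ n ih =>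
      obtain ⟨i, j, h⟩ := ih
      exact ⟨4 * i, j + 1, by rw [pow_succ', mul_assoc, h, ← mul_assoc, B_pow, mul_assoc, ← pow_succ']⟩
  induction hh using Subgroup.closure_induction_left with
  | one => exact ⟨0, 0, by simp⟩
  | mul_left x hx y _ ih =>
    rcases hx with rfl | rfl
    · simpa using hA 1 y ih
    · simpa using hB 1 y ih
  | inv_mul_cancel x hx y _ ih =>
    rcases hx with rfl | rfl
    · have : A⁻¹ = A ^ 6 := inv_eq_of_mul_eq_one_right (by rw [← pow_succ', A7])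
      rw [this]
      exact hA 6 y ih
    · have : B⁻¹ = B ^ 8 := inv_eq_of_mul_eq_one_right (by rw [← pow_succ', B9])
      rw [this]
      exact hB 8 y ih

lemma fpf (h : H) (v : W) (hv : v ≠ 1) (hf : (h : MulAut W) v = v) : h = 1 := by
  obtain ⟨i, j, hij⟩ := form h h.2
  rw [pow_eq_pow_mod i A7, pow_eq_pow_mod j B9] at hij
  rw [hij, MulAut.mul_apply, pow_apply, pow_apply] at hf
  obtain ⟨h1, h2⟩ := fpf_aux ⟨i % 7, Nat.mod_lt _ (by norm_num)⟩ ⟨j % 9, Nat.mod_lt _ (by norm_num)⟩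
    v hf hv
  have h1' : i % 7 = 0 := congrArg Fin.val h1
  have h2' : j % 9 = 0 := congrArg Fin.val h2
  rw [h1', h2'] at hij
  exact Subtype.ext (by simpa using hij)

lemma trans0 (w : W) (hw : w ≠ 1) : ∃ h : H, (h : MulAut W) v0 = w := by
  obtain ⟨i, j, hij⟩ := trans_aux w hw
  refine ⟨⟨A ^ (i : ℕ) * B ^ (j : ℕ), H.mul_mem (H.pow_mem A_mem _) (H.pow_mem B_mem _)⟩, ?_⟩
  change (A ^ (i : ℕ) * B ^ (j : ℕ)) v0 = w
  rw [MulAut.mul_apply, pow_apply, pow_apply]
  exact hij

lemma trans (v w : W) (hv : v ≠ 1) (hw : w ≠ 1) : ∃ h : H, (h : MulAut W) v = w := by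
  obtain ⟨h1, rfl⟩ := trans0 v hv
  obtain ⟨h2, rfl⟩ := trans0 w hw
  exact ⟨h2 * h1⁻¹, by simp⟩

lemma card_H : Nat.card H = 63 := by
  rw [← card_ne]
  refine Nat.card_eq_of_bijective (fun h : H => ⟨(h : MulAut W) v0, fun h1 => v0_ne
    ((map_eq_one_iff _ (h : MulAut W).injective).1 h1)⟩) ⟨fun h h' e => ?_, fun w => ?_⟩
  · have e' : (h : MulAut W) v0 = (h' : MulAut W) v0 := congrArg Subtype.val e
    have := fpf (h'⁻¹ * h) v0 v0_ne (by simp [e'])
    exact (inv_mul_eq_one.1 this).symm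
  · obtain ⟨h, hh⟩ := trans0 w.1 w.2
    exact ⟨h, Subtype.ext hh⟩

/-- The group of order 4032. -/
abbrev G : Type := W ⋊[H.subtype] H

lemma card_G : Nat.card G = 4032 := by rw [SemidirectProduct.card, card_W, card_H]

instance : Finite G := Nat.finite_of_card_ne_zero (by rw [card_G]; norm_num)

open SemidirectProduct

lemma top_of (S : Subgroup G) (t : W) (ht : t ≠ 1) (htS : (inl t : G) ∈ S)
    (hS : ∀ h : H, ∃ g ∈ S, g.right = h) : S = ⊤ := by
  have hW : ∀ w : W, (inl w : G) ∈ S := by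
    intro w
    by_cases hw : w = 1
    · rw [hw, map_one]; exact S.one_mem
    · obtain ⟨h, rfl⟩ := trans t w ht hw
      obtain ⟨g, hg, rfl⟩ := hS h
      have h1 := S.mul_mem (S.mul_mem hg htS) (S.inv_mem hg)
      have h2 : g * inl t * g⁻¹ = inl ((g.right : MulAut W) t) := by
        rw [mul_inv_eq_iff_eq_mul]
        ext1
        · simp [mul_comm]
        · simp
      rwa [h2] at h1
  rw [Subgroup.eq_top_iff']
  intro x
  obtain ⟨g, hg, hgx⟩ := hS x.right
  have : x = inl (x.left * g.left⁻¹) * g := by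
    ext1
    · simp
    · simp [hgx]
  rw [this]
  exact S.mul_mem (hW _) hg

/-- The stabiliser of the point `u` in the affine action. -/
def St (u : W) : Subgroup G where
  carrier := {g | g.left * (g.right : MulAut W) u = u}
  one_mem' := by simp
  mul_mem' := by
    intro x y hx hy
    simp only [Set.mem_ofPred_eq, mul_left, mul_right, Subgroup.coe_mul, MulAut.mul_apply,
      Subgroup.coe_subtype] at hx hy ⊢
    rw [mul_assoc, ← map_mul, hy, hx]
  inv_mem' := by
    intro x hx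
    simp only [Set.mem_ofPred_eq, inv_left, inv_right, Subgroup.coe_subtype] at hx ⊢
    rw [← map_mul]
    have : x.left⁻¹ * u = (x.right : MulAut W) u := by rw [inv_mul_eq_iff_eq_mul, hx]
    rw [this]
    simp

lemma mem_St {u : W} {g : G} : g ∈ St u ↔ g.left * (g.right : MulAut W) u = u := Iff.rfl

lemma St_surj (u : W) (h : H) : ∃ g ∈ St u, g.right = h :=
  ⟨⟨u * ((h : MulAut W) u)⁻¹, h⟩, by simp [mem_St], rfl⟩

lemma card_St (u : W) : Nat.card (St u) = 63 := by
  rw [← card_H]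
  refine Nat.card_eq_of_bijective (fun g : St u => g.1.right) ⟨fun g g' e => ?_, fun h => ?_⟩
  · have e' : g.1.right = g'.1.right := e
    have h1 := mem_St.1 g.2
    have h2 := mem_St.1 g'.2
    rw [e'] at h1
    refine Subtype.ext (SemidirectProduct.ext ?_ e')
    exact mul_right_cancel (h1.trans h2.symm)
  · obtain ⟨g, hg, hh⟩ := St_surj u h
    exact ⟨⟨g, hg⟩, hh⟩

lemma St_coatom (u : W) : IsCoatom (St u) := by
  refine ⟨fun h => ?_, fun M hM => ?_⟩
  · have : (inl v0 : G) ∈ St u := h ▸ Subgroup.mem_top _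
    rw [mem_St] at this
    exact v0_ne (by simpa using this)
  · obtain ⟨g, hgM, hg⟩ := SetLike.exists_of_lt hM
    obtain ⟨g', hg', hr⟩ := St_surj u g.right
    have e : g * g'⁻¹ = inl (g.left * g'.left⁻¹) := by
      rw [mul_inv_eq_iff_eq_mul]
      ext1
      · simp
      · simp [hr]
    refine top_of M (g.left * g'.left⁻¹) (fun h1 => hg ?_)
      (e ▸ M.mul_mem hgM (M.inv_mem (hM.le hg'))) fun h => ?_
    · rw [h1, map_one, mul_inv_eq_one] at e
      exact e ▸ hg'
    · obtain ⟨x, hx, hxh⟩ := St_surj u h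
      exact ⟨x, hM.le hx, hxh⟩

lemma St_inf : St 1 ⊓ St v0 = ⊥ := by
  rw [eq_bot_iff]
  rintro g ⟨h1, h2⟩
  have h1' : g.left = 1 := by simpa [mem_St] using h1
  have h2' := mem_St.1 h2
  rw [h1', one_mul] at h2'
  exact SemidirectProduct.ext h1' (fpf _ _ v0_ne h2')

lemma exists_St (g : G) (hg : g.right ≠ 1) : ∃ u, g ∈ St u := by
  have hinj : Function.Injective (fun u : W => u * ((g.right : MulAut W) u)⁻¹) := by
    intro u u' e
    by_contra hne
    refine hg (fpf g.right (u * u'⁻¹) (fun h => hne (mul_inv_eq_one.1 h)) ?_)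
    have e' : u * ((g.right : MulAut W) u)⁻¹ = u' * ((g.right : MulAut W) u')⁻¹ := e
    rw [map_mul, map_inv, ← div_eq_mul_inv, ← div_eq_mul_inv, div_eq_div_iff_mul_eq_mul]
    rw [← div_eq_mul_inv, ← div_eq_mul_inv, div_eq_div_iff_mul_eq_mul] at e'
    rw [mul_comm, ← e']
  obtain ⟨u, hu⟩ := Finite.surjective_of_injective hinj g.left
  refine ⟨u, ?_⟩
  rw [mem_St, ← hu]
  simp

lemma not_top (g x : G) (hg : g.right = 1) : Subgroup.closure {g, x} ≠ ⊤ := by
  intro h
  have hle : Subgroup.closure {g, x} ≤ (Subgroup.zpowers x.right).comap rightHom := by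
    rw [Subgroup.closure_le]
    rintro y (rfl | rfl)
    · change y.right ∈ Subgroup.zpowers x.right
      rw [hg]; exact Subgroup.one_mem _
    · exact Subgroup.mem_zpowers _
  rw [h] at hle
  obtain ⟨m, hm⟩ : (⟨A, A_mem⟩ : H) ∈ Subgroup.zpowers x.right :=
    hle (Subgroup.mem_top (inr ⟨A, A_mem⟩ : G))
  obtain ⟨n, hn⟩ : (⟨B, B_mem⟩ : H) ∈ Subgroup.zpowers x.right :=
    hle (Subgroup.mem_top (inr ⟨B, B_mem⟩ : G))
  have : (⟨A, A_mem⟩ : H) * ⟨B, B_mem⟩ = ⟨B, B_mem⟩ * ⟨A, A_mem⟩ := by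
    rw [← hm, ← hn]
    exact zpow_mul_comm _ _ _
  exact AB_ne (congrArg Subtype.val this)

/-- First generator. -/
def g1 : G := ⟨1, ⟨A, A_mem⟩⟩
/-- Second generator. -/
def g2 : G := ⟨v0, ⟨B, B_mem⟩⟩

lemma gen_top : Subgroup.closure {g1, g2} = ⊤ := by
  set S := Subgroup.closure ({g1, g2} : Set G) with hS
  have h1 : g1 ∈ S := Subgroup.subset_closure (by simp)
  have h2 : g2 ∈ S := Subgroup.subset_closure (by simp)
  have hr : ∀ n : ℕ, ∀ g : G, (g ^ n).right = g.right ^ n := fun n g => map_pow rightHom g n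
  have hl : (g1 ^ 4).left = 1 := by
    have : g1 = inr ⟨A, A_mem⟩ := rfl
    rw [this, ← map_pow]
    rfl
  have e : g2 * g1 = inl (v0 * ((A ^ 4) v0)⁻¹) * (g1 ^ 4 * g2) := by
    ext1
    · simp only [mul_left, left_inl, right_inl, hl, hr]
      simp [g1, g2]
    · simp only [mul_right, right_inl, hr, one_mul]
      exact Subtype.ext BA
  refine top_of S (v0 * ((A ^ 4) v0)⁻¹) (fun h => A4_v0 (mul_inv_eq_one.1 h).symm) ?_ fun h => ?_
  · rw [← mul_inv_eq_iff_eq_mul] at e
    rw [← e]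
    exact S.mul_mem (S.mul_mem h2 h1) (S.inv_mem (S.mul_mem (S.pow_mem h1 _) h2))
  · obtain ⟨i, j, hij⟩ := form h h.2
    refine ⟨g1 ^ i * g2 ^ j, S.mul_mem (S.pow_mem h1 _) (S.pow_mem h2 _), ?_⟩
    rw [mul_right, hr, hr]
    exact Subtype.ext hij.symm

lemma g1_ne_g2 : g1 ≠ g2 := fun h => v0_ne (congrArg SemidirectProduct.left h).symm

end Pool.Agent.P.MP_ecc06a_al
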